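import Pool.Agent.Work.MP_46fa68_48c.TwoTab
import Pool.Agent.Work.MP_46fa68_40.StepY2

/-!
# MP_46fa68_co: cross-`1`-intersecting families, `5 ≤ N ≤ 11` points

`|P| |Q| ≤ (N-1)!^2` for `P`, `Q` with a common value of every pair: the ratio bound for the derangement graph,
whose eigenvalues `η` give the table `D (1 + v) f`, `v = N [λ = (N)] - (N-1) η_λ / D_N`, `|v| ≤ 1`, checked by
evaluation in the kernel (helper48's checks, `CB_of_tab`).
-/

set_option autoImplicit false

open Finset Equiv

namespace Pool.EG

open Pool.JM.Pack Pool.TW

/-- the cross bound in natural numbers -/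
theorem cross1_of_CB {m D R S : ℕ} (hS : lt' 0 S = true) (hDR : Nat.beq (Nat.mul D R) S = true)
    (h : CB (m + 1) 1 (((D : ℝ) * R / S * m.factorial) ^ 2)) : Cross1 (m + 1) := by
  intro P Q hPQ
  have h0 : 0 < S := lt'_iff hS
  have h1 : D * R = S := Nat.eq_of_beq_eq_true hDR
  have h2 : (D : ℝ) * R / S = 1 := by
    have h3 : ((D * R : ℕ) : ℝ) = S := by rw [h1]
    push_cast at h3
    rw [h3]
    exact div_self (by exact_mod_cast h0.ne')
  have h4 := h P Q fun σ hσ τ hτ => by
    obtain ⟨i, hi⟩ := hPQ σ hσ τ hτ
    exact card_pos.2 ⟨i, mem_filter.2 ⟨mem_univ _, hi⟩⟩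
  rw [h2, one_mul] at h4
  have h5 : ((P.card * Q.card : ℕ) : ℝ) ≤ ((m.factorial ^ 2 : ℕ) : ℝ) := by
    push_cast
    exact h4
  exact_mod_cast h5


/-! ### `N = 5` -/

theorem cb_5 : CB (4 + 1) 1 ((((11 : ℕ) : ℝ) * ((5 : ℕ) : ℝ) / ((55 : ℕ) : ℝ) * ((Nat.factorial 4 : ℕ) : ℝ)) ^ 2) :=
  CB_of_tab (W := 65536) (v := 9) (f := 12) (m := 4) (j := 1) (hi := 3) (D := 11) (S := 55) (R := 5)
    (E := 22) (x := 1743125961431589379276322897927)
    (by decide +kernel) (by decide +kernel) (by decide +kernel) (by decide +kernel) (by decide +kernel)
    (by decide +kernel) (by decide +kernel) (by decide +kernel) (by decide +kernel) (by decide +kernel)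

theorem cross1_5 : Cross1 5 := cross1_of_CB (m := 4) (by decide +kernel) (by decide +kernel) cb_5


/-! ### `N = 6` -/

theorem cb_6 : CB (5 + 1) 1 ((((53 : ℕ) : ℝ) * ((6 : ℕ) : ℝ) / ((318 : ℕ) : ℝ) * ((Nat.factorial 5 : ℕ) : ℝ)) ^ 2) :=
  CB_of_tab (W := 1048576) (v := 13) (f := 14) (m := 5) (j := 1) (hi := 6) (D := 53) (S := 318) (R := 6)
    (E := 106) (x := 170336244914589462246029135827513895913671127533396364915376186)
    (by decide +kernel) (by decide +kernel) (by decide +kernel) (by decide +kernel) (by decide +kernel)
    (by decide +kernel) (by decide +kernel) (by decide +kernel) (by decide +kernel) (by decide +kernel)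

theorem cross1_6 : Cross1 6 := cross1_of_CB (m := 5) (by decide +kernel) (by decide +kernel) cb_6


/-! ### `N = 7` -/

theorem cb_7 : CB (6 + 1) 1 ((((103 : ℕ) : ℝ) * ((7 : ℕ) : ℝ) / ((721 : ℕ) : ℝ) * ((Nat.factorial 6 : ℕ) : ℝ)) ^ 2) :=
  CB_of_tab (W := 4194304) (v := 15) (f := 16) (m := 6) (j := 1) (hi := 16) (D := 103) (S := 721) (R := 7)
    (E := 206) (x := 107425282920889123784927354772769506338838959231237534234503642971413643095604368081934107017317)
    (by decide +kernel) (by decide +kernel) (by decide +kernel) (by decide +kernel) (by decide +kernel)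
    (by decide +kernel) (by decide +kernel) (by decide +kernel) (by decide +kernel) (by decide +kernel)

theorem cross1_7 : Cross1 7 := cross1_of_CB (m := 6) (by decide +kernel) (by decide +kernel) cb_7


/-! ### `N = 8` -/

theorem cb_8 : CB (7 + 1) 1 ((((2119 : ℕ) : ℝ) * ((8 : ℕ) : ℝ) / ((16952 : ℕ) : ℝ) * ((Nat.factorial 7 : ℕ) : ℝ)) ^ 2) :=
  CB_of_tab (W := 268435456) (v := 21) (f := 18) (m := 7) (j := 1) (hi := 35) (D := 2119) (S := 16952) (R := 8)
    (E := 4238) (x := 4293370956908967481129265817790461020513855466480082500371644996766863667267103643347595480850028359107894000709627350725852545170442507062279655974128894864864086636700964889823310)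
    (by decide +kernel) (by decide +kernel) (by decide +kernel) (by decide +kernel) (by decide +kernel)
    (by decide +kernel) (by decide +kernel) (by decide +kernel) (by decide +kernel) (by decide +kernel)

theorem cross1_8 : Cross1 8 := cross1_of_CB (m := 7) (by decide +kernel) (by decide +kernel) cb_8


/-! ### `N = 9` -/

theorem cb_9 : CB (8 + 1) 1 ((((16687 : ℕ) : ℝ) * ((9 : ℕ) : ℝ) / ((150183 : ℕ) : ℝ) * ((Nat.factorial 8 : ℕ) : ℝ)) ^ 2) :=
  CB_of_tab (W := 4294967296) (v := 25) (f := 20) (m := 8) (j := 1) (hi := 90) (D := 16687) (S := 150183) (R := 9)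
    (E := 33374) (x := 75725864251672868243291858652980091619386983297438922342535569027413662794205330462126358098287228447944456758007885907423330899872609324424169084425343925846180821327094099673847879042312917078368171947577255913399952254497305428281415194793804529310544539856771533569531373147930919)
    (by decide +kernel) (by decide +kernel) (by decide +kernel) (by decide +kernel) (by decide +kernel)
    (by decide +kernel) (by decide +kernel) (by decide +kernel) (by decide +kernel) (by decide +kernel)

theorem cross1_9 : Cross1 9 := cross1_of_CB (m := 8) (by decide +kernel) (by decide +kernel) cb_9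


/-! ### `N = 10` -/

theorem cb_10 : CB (9 + 1) 1 ((((16481 : ℕ) : ℝ) * ((10 : ℕ) : ℝ) / ((164810 : ℕ) : ℝ) * ((Nat.factorial 9 : ℕ) : ℝ)) ^ 2) :=
  CB_of_tab (W := 17179869184) (v := 27) (f := 22) (m := 9) (j := 1) (hi := 216) (D := 16481) (S := 164810) (R := 10)
    (E := 32962) (x := 14250414961563992961153643395750716793192014376563365292558029515941822980615589813315319256743402700444981245738101124411183739341391387678135931306076579207477105217307892167388926613473106735880780494995332277254108855058593180664302517899198230517125887706986914041074841678532877993360683058659754408424126626078544343103088301588421813631902553524971788721148910332135273334350594935937348659326149441125916195422224482)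
    (by decide +kernel) (by decide +kernel) (by decide +kernel) (by decide +kernel) (by decide +kernel)
    (by decide +kernel) (by decide +kernel) (by decide +kernel) (by decide +kernel) (by decide +kernel)

theorem cross1_10 : Cross1 10 := cross1_of_CB (m := 9) (by decide +kernel) (by decide +kernel) cb_10


/-! ### `N = 11` -/

theorem cb_11 : CB (10 + 1) 1 ((((1468457 : ℕ) : ℝ) * ((11 : ℕ) : ℝ) / ((16153027 : ℕ) : ℝ) * ((Nat.factorial 10 : ℕ) : ℝ)) ^ 2) :=
  CB_of_tab (W := 4398046511104) (v := 35) (f := 24) (m := 10) (j := 1) (hi := 768) (D := 1468457) (S := 16153027) (R := 11)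
    (E := 2936914) (x := 703365744389197295257759867395397454791730484500511480506236026632634580589247842213550030825343452230663362985595198203921958260861800793884946822715317105089068222825719729794029974486123539498595319361825083241801871535680651008343180935898346904173150337628384054212833990119426733305868129043134379445218022976323649870716634810012661043488432789977472633309942884994355056056748909532612785443563888552946660250626775450905700332354465468106714806753730314242978378380101406204701530660092081032181685398855761886447525108186254821020265105332615625912421386784612647869456661818399560052907726744182755168008142599654203359272696083663345187403302760821213615546280229532987434071377841537574943)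
    (by decide +kernel) (by decide +kernel) (by decide +kernel) (by decide +kernel) (by decide +kernel)
    (by decide +kernel) (by decide +kernel) (by decide +kernel) (by decide +kernel) (by decide +kernel)

theorem cross1_11 : Cross1 11 := cross1_of_CB (m := 10) (by decide +kernel) (by decide +kernel) cb_11


end Pool.EG
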