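import Pool.Agent.Work.MP_46fa68_h58.C2X
import Pool.Agent.Work.MP_46fa68_h58.Cross1
import Pool.Agent.Work.MP_46fa68_76.EndH5

/-!
# MP_46fa68_co: the diagonal `m = 10` from class functions, with the exact counts of step (c2)

Popular threshold `.8385` on line 0, `.1925` at `.677` and `.171` at `.82` on line 2.
-/

set_option autoImplicit false

open Finset Equiv

namespace Pool.EG

theorem yAny7 : YAny 7 (8115 / 10000) := yAny_two (by norm_num) cross1_7 ytop2_8

theorem yAny8 : YAny 8 (8215 / 10000) := yAny_two (by norm_num) cross1_8 ytop2_9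

theorem yAny9 : YAny 9 (8310 / 10000) := yAny_two (by norm_num) cross1_9 ytop2_10

theorem yAny10 : YAny 10 (8402 / 10000) := yAny_two (by norm_num) cross1_10 ytop2_11

/-- `m = 10`, class functions, exact counts -/
theorem holds19_ofX (hG0 : Gap 19 9 1 (25 / 100) (8385 / 10000))
    (hG2 : Gap 17 7 (677 / 1000) (1925 / 10000) (38 / 100))
    (hGs : Gap 17 7 (82 / 100) (171 / 1000) (31 / 100))
    (hLink : Link 9) (hK : ∀ n' t' : ℕ, 2 * t' + 3 ≤ n' → Holds n' t') : Holds 19 9 := by
  have e : (2 * (8385 / 10000) - 1 : ℝ) = 677 / 1000 := by norm_num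
  exact holds_of_gapsX (t := 9) (β0 := 25 / 100) (p0 := 8385 / 10000) (β2 := 1925 / 10000)
    (p2 := 38 / 100) (θs := 82 / 100) (βs := 171 / 1000) (ps := 31 / 100)
    numX10 (by norm_num) (by norm_num) hG0
    (by rw [e]; exact hG2) hGs (yAny9.mono (by norm_num)) hLink hK

end Pool.EG
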