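import Pool.Agent.Work.MP_46fa68_76.EndH4

/-!
# MP_46fa68_co: step (c2) with the exact counts

`s` misses the two popular cells of `Z` and contains the `t` popular cells of `H`.  `X` = members through `Z`.  A member of
`X` has `2 - u` too few further agreements with `s` only if it contains `H`, or misses one cell of `H` and has exactly one
agreement in `O` (`u` = agreements in `O`, `|O| = q ≤ t - 1`): `2 N0 + N1 + t q D(t - 1, q)`, where `D(N, q)` is the
number of permutations of `N` points avoiding `q` cells in general position.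
-/

set_option autoImplicit false

open Finset Equiv

namespace Pool.EG

variable {n t : ℕ}

/-- permutations of `N` points avoiding `q` cells in general position -/
def Dq : ℕ → ℕ → ℤ
  | N, 0 => (N.factorial : ℤ)
  | N, q + 1 => Dq N q - Dq (N - 1) q

/-- exact count of the permutations which agree with `g` on `Z` and avoid `s` on `R` -/
theorem avoid_eq (R : Finset (Fin n)) : ∀ (g s : Perm (Fin n)) (Z : Finset (Fin n)), Disjoint Z R →
    (∀ i ∈ R, ∀ j ∈ Z, s i ≠ g j) →
    (((star g Z).filter (fun σ => ∀ i ∈ R, σ i ≠ s i)).card : ℤ) = Dq (n - Z.card) R.card := by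
  classical
  induction R using Finset.induction_on with
  | empty =>
    intro g s Z _ _
    have h1 : (star g Z).filter (fun σ => ∀ i ∈ (∅ : Finset (Fin n)), σ i ≠ s i) = star g Z := by
      rw [filter_true_of_mem]
      intro σ _ i hi
      exact absurd hi (notMem_empty i)
    rw [h1, card_star, card_empty]
    rfl
  | insert a R haR ih =>
    intro g s Z hZR hc
    have haZ : a ∉ Z := fun h => disjoint_left.1 hZR h (mem_insert_self a R)
    have hZR' : Disjoint Z R := disjoint_of_subset_right (subset_insert a R) hZR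
    have hc' : ∀ i ∈ R, ∀ j ∈ Z, s i ≠ g j := fun i hi => hc i (mem_insert_of_mem hi)
    obtain ⟨g', hg'⟩ := exists_ext (insert a Z) (fun i => if i = a then s a else g i) (by
      intro i hi j hj hij
      have hi' := mem_insert.1 (mem_coe.1 hi)
      have hj' := mem_insert.1 (mem_coe.1 hj)
      simp only at hij
      split_ifs at hij with h1 h2 h2
      · rw [h1, h2]
      · exact absurd hij (hc a (mem_insert_self a R) j (hj'.resolve_left h2))
      · exact absurd hij.symm (hc a (mem_insert_self a R) i (hi'.resolve_left h1))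
      · exact g.injective hij)
    have hga : g' a = s a := by
      rw [hg' a (mem_insert_self a Z), if_pos rfl]
    have hgZ : ∀ i ∈ Z, g' i = g i := fun i hi => by
      rw [hg' i (mem_insert_of_mem hi), if_neg (by rintro rfl; exact haZ hi)]
    have h1 := ih g s Z hZR' hc'
    have h2 := ih g' s (insert a Z) (by
      rw [disjoint_insert_left]
      exact ⟨haR, hZR'⟩) (by
      intro i hi j hj
      rcases mem_insert.1 hj with rfl | hj
      · rw [hga]
        intro h
        have := s.injective h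
        rw [this] at hi
        exact haR hi
      · rw [hgZ j hj]
        exact hc' i hi j hj)
    have h3 : ((star g Z).filter (fun σ => ∀ i ∈ R, σ i ≠ s i)).card =
        ((star g Z).filter (fun σ => ∀ i ∈ insert a R, σ i ≠ s i)).card +
          ((star g' (insert a Z)).filter (fun σ => ∀ i ∈ R, σ i ≠ s i)).card := by
      have h4 : (star g' (insert a Z)).filter (fun σ => ∀ i ∈ R, σ i ≠ s i) =
          ((star g Z).filter (fun σ => ∀ i ∈ R, σ i ≠ s i)).filter (fun σ => σ a = s a) := by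
        ext σ
        simp only [mem_filter, mem_star]
        constructor
        · rintro ⟨h5, h6⟩
          refine ⟨⟨fun i hi => ?_, h6⟩, ?_⟩
          · rw [h5 i (mem_insert_of_mem hi), hgZ i hi]
          · rw [h5 a (mem_insert_self a Z), hga]
        · rintro ⟨⟨h5, h6⟩, h7⟩
          refine ⟨fun i hi => ?_, h6⟩
          rcases mem_insert.1 hi with rfl | hi
          · rw [h7, hga]
          · rw [h5 i hi, hgZ i hi]
      have h5 : (star g Z).filter (fun σ => ∀ i ∈ insert a R, σ i ≠ s i) =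
          ((star g Z).filter (fun σ => ∀ i ∈ R, σ i ≠ s i)).filter (fun σ => ¬ σ a = s a) := by
        ext σ
        simp only [mem_filter, mem_star, mem_insert, forall_eq_or_imp]
        tauto
      rw [h4, h5, add_comm]
      exact (card_filter_add_card_filter_not (s := (star g Z).filter (fun σ => ∀ i ∈ R, σ i ≠ s i))
        (fun σ => σ a = s a)).symm
    have h4 : n - (insert a Z).card = n - Z.card - 1 := by
      rw [card_insert_of_notMem haZ]
      omega
    rw [card_insert_of_notMem haR]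
    change _ = Dq (n - Z.card) R.card - Dq (n - Z.card - 1) R.card
    rw [h4] at h2
    rw [← h1, ← h2, h3]
    push_cast
    ring

/-- members of `X` with prescribed agreements `S` and prescribed disagreements `R'` with `s` -/
theorem cnt_le {X : Finset (Perm (Fin n))} {g s : Perm (Fin n)} {Z R S R' : Finset (Fin n)}
    (hXZ : ∀ σ ∈ X, ∀ i ∈ Z, σ i = g i) (hZR : Disjoint Z R)
    (hcR : ∀ i ∈ R, ∀ j ∈ Z, s i ≠ g j) (hSR : S ⊆ R) (hR'R : R' ⊆ R) (hSR' : Disjoint S R') :
    ((X.filter (fun σ => (∀ i ∈ S, σ i = s i) ∧ ∀ i ∈ R', σ i ≠ s i)).card : ℤ) ≤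
      Dq (n - (Z.card + S.card)) R'.card := by
  classical
  have hZS : Disjoint Z S := disjoint_of_subset_right hSR hZR
  obtain ⟨g', hg'⟩ := exists_ext (Z ∪ S) (fun i => if i ∈ Z then g i else s i) (by
    intro i hi j hj hij
    have hi' := mem_union.1 (mem_coe.1 hi)
    have hj' := mem_union.1 (mem_coe.1 hj)
    simp only at hij
    split_ifs at hij with h1 h2 h2
    · exact g.injective hij
    · exact absurd hij.symm (hcR j (hSR (hj'.resolve_left h2)) i h1)
    · exact absurd hij (hcR i (hSR (hi'.resolve_left h1)) j h2)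
    · exact s.injective hij)
  have hg1 : ∀ i ∈ Z, g' i = g i := fun i hi => by
    rw [hg' i (mem_union_left _ hi), if_pos hi]
  have hg2 : ∀ i ∈ S, g' i = s i := fun i hi => by
    rw [hg' i (mem_union_right _ hi), if_neg (fun h => disjoint_left.1 hZS h hi)]
  have hdis : Disjoint (Z ∪ S) R' := by
    rw [disjoint_union_left]
    exact ⟨disjoint_of_subset_right hR'R hZR, hSR'⟩
  have hcR' : ∀ i ∈ R', ∀ j ∈ Z ∪ S, s i ≠ g' j := by
    intro i hi j hj
    rcases mem_union.1 hj with hj | hj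
    · rw [hg1 j hj]
      exact hcR i (hR'R hi) j hj
    · rw [hg2 j hj]
      intro h
      have := s.injective h
      subst this
      exact disjoint_left.1 hSR' hj hi
  have h7 := avoid_eq R' g' s (Z ∪ S) hdis hcR'
  rw [card_union_of_disjoint hZS] at h7
  rw [← h7]
  have h8 : (X.filter (fun σ => (∀ i ∈ S, σ i = s i) ∧ ∀ i ∈ R', σ i ≠ s i)).card ≤
      ((star g' (Z ∪ S)).filter (fun σ => ∀ i ∈ R', σ i ≠ s i)).card := by
    apply card_le_card
    intro σ hσ
    obtain ⟨hσ1, hσ2, hσ3⟩ := mem_filter.1 hσ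
    refine mem_filter.2 ⟨mem_star.2 fun i hi => ?_, hσ3⟩
    rcases mem_union.1 hi with hi | hi
    · rw [hXZ σ hσ1 i hi, hg1 i hi]
    · rw [hσ2 i hi, hg2 i hi]
  exact_mod_cast h8

/-- the deficit of the members of `X` -/
def c2b (t q : ℕ) : ℤ := 2 * Dq (t - 1) q + q * Dq (t - 2) (q - 1) + t * q * Dq (t - 1) q

/-- `h = t` with the exact counts -/
theorem core_tX (hn : n = 2 * t + 1) (ht : 5 ≤ t) {X : Finset (Perm (Fin n))}
    {g s : Perm (Fin n)} {Z R H : Finset (Fin n)} {β : ℝ}
    (hZ : Z.card = 2) (hXZ : ∀ σ ∈ X, ∀ i ∈ Z, σ i = g i) (hZR : Disjoint Z R)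
    (hcR : ∀ i ∈ R, ∀ j ∈ Z, s i ≠ g j)
    (hR : R.card ≤ 2 * t - 1) (hHR : H ⊆ R) (hH : H.card = t)
    (hX : ∀ σ ∈ X, t ≤ (R.filter (fun i => σ i = s i)).card)
    (hgap : ∀ i ∈ R, i ∉ H → ((thr X i (s i)).card : ℝ) ≤ β * X.card) :
    ∃ q : ℕ, q ≤ t - 1 ∧ (0 : ℝ) ≤ (c2b t q : ℝ) ∧ (2 - β * q) * X.card ≤ (c2b t q : ℝ) := by
  classical
  set a : ℝ := (X.card : ℝ) with ha
  have ha0 : 0 ≤ a := Nat.cast_nonneg _
  set O := R \ H with hO
  have hOR : O ⊆ R := sdiff_subset
  have hOH : Disjoint O H := sdiff_disjoint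
  have hOc : O.card ≤ t - 1 := by
    rw [hO, card_sdiff_of_subset hHR]
    omega
  -- the sum of u
  have h1 : ∑ σ ∈ X, ((O.filter (fun i => σ i = s i)).card : ℝ) ≤ O.card * (β * a) := by
    have h2 : ∑ σ ∈ X, ((O.filter (fun i => σ i = s i)).card : ℝ) =
        ∑ i ∈ O, ((thr X i (s i)).card : ℝ) := by
      have := sum_thr_hits X s O
      exact_mod_cast this.symm
    rw [h2]
    calc ∑ i ∈ O, ((thr X i (s i)).card : ℝ) ≤ ∑ i ∈ O, β * a :=
          sum_le_sum fun i hi => hgap i (mem_sdiff.1 hi).1 (mem_sdiff.1 hi).2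
      _ = O.card * (β * a) := by rw [sum_const, nsmul_eq_mul]
  -- the members with a deficit
  let P0 : Finset (Perm (Fin n)) := X.filter (fun σ => (∀ i ∈ H, σ i = s i) ∧ ∀ i ∈ O, σ i ≠ s i)
  let B1 : Fin n → Finset (Perm (Fin n)) := fun i1 =>
    X.filter (fun σ => (∀ i ∈ insert i1 H, σ i = s i) ∧ ∀ i ∈ O.erase i1, σ i ≠ s i)
  let P1 : Finset (Perm (Fin n)) := O.biUnion B1
  let B : Fin n × Fin n → Finset (Perm (Fin n)) := fun c =>
    X.filter (fun σ => (∀ i ∈ insert c.2 (H.erase c.1), σ i = s i) ∧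
      ∀ i ∈ insert c.1 (O.erase c.2), σ i ≠ s i)
  let B' : Finset (Perm (Fin n)) := (H ×ˢ O).biUnion B
  have h2 : ∀ σ ∈ X, (2 : ℝ) - 2 * (if σ ∈ P0 then 1 else 0) - (if σ ∈ P1 then 1 else 0) -
      (if σ ∈ B' then 1 else 0) ≤ ((O.filter (fun i => σ i = s i)).card : ℝ) := by
    intro σ hσ
    have h3 : (R.filter (fun i => σ i = s i)).card =
        (H.filter (fun i => σ i = s i)).card + (O.filter (fun i => σ i = s i)).card := by
      rw [← card_union_of_disjoint (disjoint_filter_filter disjoint_sdiff), ← filter_union,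
        union_sdiff_of_subset hHR]
    have h4 := hX σ hσ
    have hnn : (0 : ℝ) ≤ ((O.filter (fun i => σ i = s i)).card : ℝ) := Nat.cast_nonneg _
    by_cases h7 : 2 ≤ (O.filter (fun i => σ i = s i)).card
    · have h8 : (2 : ℝ) ≤ ((O.filter (fun i => σ i = s i)).card : ℝ) := by exact_mod_cast h7
      split_ifs <;> linarith
    by_cases h8 : (O.filter (fun i => σ i = s i)).card = 0
    · -- no agreement in `O`
      have h9 : H.filter (fun i => σ i = s i) = H := by
        apply eq_of_subset_of_card_le (filter_subset _ _)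
        omega
      have h10 : σ ∈ P0 := by
        refine mem_filter.2 ⟨hσ, fun i hi => ?_, fun i hi hcon => ?_⟩
        · rw [← h9] at hi
          exact (mem_filter.1 hi).2
        · have h11 : i ∈ O.filter (fun i => σ i = s i) := mem_filter.2 ⟨hi, hcon⟩
          rw [card_eq_zero.1 h8] at h11
          exact absurd h11 (notMem_empty i)
      rw [if_pos h10]
      split_ifs <;> linarith
    · have h9 : (O.filter (fun i => σ i = s i)).card = 1 := by omega
      obtain ⟨i1, hi1⟩ := card_eq_one.1 h9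
      have hi1O : i1 ∈ O ∧ σ i1 = s i1 := by
        have : i1 ∈ O.filter (fun i => σ i = s i) := by rw [hi1]; exact mem_singleton_self _
        exact mem_filter.1 this
      have havO : ∀ i ∈ O.erase i1, σ i ≠ s i := by
        intro i hi hcon
        have h12 : i ∈ O.filter (fun i => σ i = s i) :=
          mem_filter.2 ⟨(mem_erase.1 hi).2, hcon⟩
        rw [hi1, mem_singleton] at h12
        exact (mem_erase.1 hi).1 h12
      have h12 : ((O.filter (fun i => σ i = s i)).card : ℝ) = 1 := by rw [h9]; simp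
      rw [h12]
      by_cases h5 : ∀ i ∈ H, σ i = s i
      · have h10 : σ ∈ P1 := by
          refine mem_biUnion.2 ⟨i1, hi1O.1, mem_filter.2 ⟨hσ, fun i hi => ?_, havO⟩⟩
          rcases mem_insert.1 hi with rfl | hi
          · exact hi1O.2
          · exact h5 i hi
        rw [if_pos h10]
        split_ifs <;> norm_num
      · have h6 : (H.filter (fun i => σ i = s i)).card < H.card := by
          apply card_lt_card
          refine (filter_subset _ _).ssubset_of_ne ?_
          intro h7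
          exact h5 fun i hi => by
            rw [← h7] at hi
            exact (mem_filter.1 hi).2
        have h10 : (H \ H.filter (fun i => σ i = s i)).card = 1 := by
          rw [card_sdiff_of_subset (filter_subset _ _)]
          omega
        obtain ⟨i0, hi0⟩ := card_eq_one.1 h10
        have hi0H : i0 ∈ H ∧ σ i0 ≠ s i0 := by
          have : i0 ∈ H \ H.filter (fun i => σ i = s i) := by rw [hi0]; exact mem_singleton_self _
          rw [mem_sdiff, mem_filter] at this
          exact ⟨this.1, fun h => this.2 ⟨this.1, h⟩⟩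
        have h11 : σ ∈ B' := by
          refine mem_biUnion.2 ⟨(i0, i1), mem_product.2 ⟨hi0H.1, hi1O.1⟩, ?_⟩
          refine mem_filter.2 ⟨hσ, fun i hi => ?_, fun i hi => ?_⟩
          · rcases mem_insert.1 hi with rfl | hi
            · exact hi1O.2
            · by_contra hcon
              have h12 : i ∈ H \ H.filter (fun i => σ i = s i) :=
                mem_sdiff.2 ⟨(mem_erase.1 hi).2, fun h => hcon (mem_filter.1 h).2⟩
              rw [hi0, mem_singleton] at h12
              exact (mem_erase.1 hi).1 h12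
          · rcases mem_insert.1 hi with rfl | hi
            · exact hi0H.2
            · exact havO i hi
        rw [if_pos h11]
        split_ifs <;> norm_num
  -- the counts
  have hP0 : ((P0.card : ℕ) : ℤ) ≤ Dq (t - 1) O.card := by
    have := cnt_le (X := X) (g := g) (s := s) (Z := Z) (R := R) (S := H) (R' := O) hXZ hZR hcR
      hHR hOR hOH.symm
    rwa [hZ, hH, show n - (2 + t) = t - 1 by omega] at this
  have hP1 : ((P1.card : ℕ) : ℤ) ≤ O.card * Dq (t - 2) (O.card - 1) := by
    have h5 : P1.card ≤ ∑ i ∈ O, (B1 i).card := card_biUnion_le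
    have h6 : ∀ i ∈ O, ((B1 i).card : ℤ) ≤ Dq (t - 2) (O.card - 1) := by
      intro i hi
      have hiH : i ∉ H := (mem_sdiff.1 hi).2
      have := cnt_le (X := X) (g := g) (s := s) (Z := Z) (R := R) (S := insert i H)
        (R' := O.erase i) hXZ hZR hcR (by
          intro j hj
          rcases mem_insert.1 hj with rfl | hj
          · exact hOR hi
          · exact hHR hj) ((erase_subset _ _).trans hOR) (by
          rw [disjoint_insert_left]
          exact ⟨fun h => (mem_erase.1 h).1 rfl,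
            disjoint_of_subset_right (erase_subset _ _) hOH.symm⟩)
      rwa [hZ, card_insert_of_notMem hiH, hH, card_erase_of_mem hi,
        show n - (2 + (t + 1)) = t - 2 by omega] at this
    calc ((P1.card : ℕ) : ℤ) ≤ ∑ i ∈ O, ((B1 i).card : ℤ) := by exact_mod_cast h5
      _ ≤ ∑ i ∈ O, Dq (t - 2) (O.card - 1) := sum_le_sum h6
      _ = _ := by rw [sum_const, nsmul_eq_mul]
  have hB' : ((B'.card : ℕ) : ℤ) ≤ t * O.card * Dq (t - 1) O.card := by
    have h5 : B'.card ≤ ∑ c ∈ H ×ˢ O, (B c).card := card_biUnion_le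
    have h6 : ∀ c ∈ H ×ˢ O, ((B c).card : ℤ) ≤ Dq (t - 1) O.card := by
      intro c hc
      obtain ⟨hc0, hc1⟩ := mem_product.1 hc
      have hc1H : c.2 ∉ H := (mem_sdiff.1 hc1).2
      have hc0O : c.1 ∉ O := fun h => (mem_sdiff.1 h).2 hc0
      have := cnt_le (X := X) (g := g) (s := s) (Z := Z) (R := R) (S := insert c.2 (H.erase c.1))
        (R' := insert c.1 (O.erase c.2)) hXZ hZR hcR (by
          intro j hj
          rcases mem_insert.1 hj with rfl | hj
          · exact hOR hc1
          · exact hHR (mem_erase.1 hj).2) (by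
          intro j hj
          rcases mem_insert.1 hj with rfl | hj
          · exact hHR hc0
          · exact hOR (mem_erase.1 hj).2) (by
          rw [disjoint_left]
          intro i hi hi2
          rcases mem_insert.1 hi with rfl | hi
          · rcases mem_insert.1 hi2 with h | h
            · exact hc1H (h ▸ hc0)
            · exact (mem_erase.1 h).1 rfl
          · rcases mem_insert.1 hi2 with h | h
            · exact (mem_erase.1 hi).1 h
            · exact (mem_sdiff.1 (mem_erase.1 h).2).2 (mem_erase.1 hi).2)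
      have e1 : (insert c.2 (H.erase c.1)).card = t := by
        rw [card_insert_of_notMem (fun h => hc1H (mem_erase.1 h).2), card_erase_of_mem hc0, hH]
        omega
      have e2 : (insert c.1 (O.erase c.2)).card = O.card := by
        rw [card_insert_of_notMem (fun h => hc0O (mem_erase.1 h).2), card_erase_of_mem hc1]
        have : 0 < O.card := card_pos.2 ⟨_, hc1⟩
        omega
      rwa [hZ, e1, e2, show n - (2 + t) = t - 1 by omega] at this
    calc ((B'.card : ℕ) : ℤ) ≤ ∑ c ∈ H ×ˢ O, ((B c).card : ℤ) := by exact_mod_cast h5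
      _ ≤ ∑ c ∈ H ×ˢ O, Dq (t - 1) O.card := sum_le_sum h6
      _ = _ := by
        rw [sum_const, nsmul_eq_mul, card_product, hH]
        push_cast
        ring
  have h5 := sum_le_sum h2
  rw [sum_sub_distrib, sum_sub_distrib, sum_sub_distrib, ← mul_sum, sum_const, nsmul_eq_mul,
    sum_boole, sum_boole, sum_boole] at h5
  have h6 : ∀ P : Finset (Perm (Fin n)), ((X.filter (fun σ => σ ∈ P)).card : ℝ) ≤ (P.card : ℝ) := by
    intro P
    have : (X.filter (fun σ => σ ∈ P)).card ≤ P.card :=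
      card_le_card fun σ hσ => (mem_filter.1 hσ).2
    exact_mod_cast this
  have h7 := h6 P0
  have h8 := h6 P1
  have h9 := h6 B'
  have h10 : (2 : ℤ) * (P0.card : ℤ) + (P1.card : ℤ) + (B'.card : ℤ) ≤ c2b t O.card := by
    unfold c2b
    linarith
  have h11 : (2 : ℝ) * (P0.card : ℝ) + (P1.card : ℝ) + (B'.card : ℝ) ≤ (c2b t O.card : ℝ) := by
    exact_mod_cast h10
  have h13 : (0 : ℝ) ≤ (P0.card : ℝ) := Nat.cast_nonneg _
  have h14 : (0 : ℝ) ≤ (P1.card : ℝ) := Nat.cast_nonneg _
  have h15 : (0 : ℝ) ≤ (B'.card : ℝ) := Nat.cast_nonneg _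
  exact ⟨O.card, hOc, by linarith, by linarith⟩

/-- (c2), exact counts -/
theorem step_mi2X (ht : 5 ≤ t) {A : Finset (Perm (Fin (2 * t + 1)))} (hA : TInt t A)
    {θ β2 : ℝ} (hF : ((t + 1).factorial : ℝ) ≤ A.card)
    (hθ : 0 < θ)
    (hC2 : ∀ q : ℕ, q ≤ t - 1 → (c2b t q : ℝ) < (2 - β2 * q) * θ * ((t + 1).factorial : ℝ))
    {g : Perm (Fin (2 * t + 1))} {T : Finset (Fin (2 * t + 1))} (hL : Low2 A g T β2)
    {x x' : Fin (2 * t + 1)} (hxT : x ∈ T) (hxT' : x' ∈ T) (hxx : x ≠ x')
    (hXc : θ * A.card ≤ ((thr A x (g x) ∩ thr A x' (g x')).card : ℝ))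
    {s : Perm (Fin (2 * t + 1))} (hs : s ∈ A) (hsx : s x ≠ g x) (hsx' : s x' ≠ g x')
    (hcard : (T.filter (fun i => s i = g i)).card = t) : False := by
  classical
  set X := thr A x (g x) ∩ thr A x' (g x') with hXdef
  have hfac : (0 : ℝ) < ((t + 1).factorial : ℝ) := by exact_mod_cast Nat.factorial_pos _
  have hXF : θ * ((t + 1).factorial : ℝ) ≤ (X.card : ℝ) :=
    le_trans (mul_le_mul_of_nonneg_left hF hθ.le) hXc
  have hXA : ∀ σ ∈ X, σ ∈ A ∧ σ x = g x ∧ σ x' = g x' := by
    intro σ hσ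
    obtain ⟨h1, h2⟩ := mem_inter.1 hσ
    exact ⟨(mem_filter.1 h1).1, (mem_filter.1 h1).2, (mem_filter.1 h2).2⟩
  set Z : Finset (Fin (2 * t + 1)) := {x, x'} with hZ
  have hZc : Z.card = 2 := card_pair hxx
  have hXZ : ∀ σ ∈ X, ∀ i ∈ Z, σ i = g i := by
    intro σ hσ i hi
    rw [hZ, mem_insert, mem_singleton] at hi
    rcases hi with rfl | rfl
    · exact (hXA σ hσ).2.1
    · exact (hXA σ hσ).2.2
  set R : Finset (Fin (2 * t + 1)) := Zᶜ.filter (fun i => ∀ j ∈ Z, s i ≠ g j) with hR
  have hZR : Disjoint Z R := by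
    rw [disjoint_left]
    intro i hi hi2
    exact (mem_compl.1 (mem_filter.1 hi2).1) hi
  have hcR : ∀ i ∈ R, ∀ j ∈ Z, s i ≠ g j := fun i hi => (mem_filter.1 hi).2
  have hRc : R.card ≤ 2 * t - 1 := by
    refine le_trans (card_filter_le _ _) ?_
    rw [card_compl, hZc, Fintype.card_fin]
    omega
  have hsZ : ∀ j ∈ Z, s j ≠ g j := by
    intro j hj
    rw [hZ, mem_insert, mem_singleton] at hj
    rcases hj with rfl | rfl
    · exact hsx
    · exact hsx'
  have hXR : ∀ σ ∈ X, t ≤ (R.filter (fun i => σ i = s i)).card := by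
    intro σ hσ
    refine le_trans (hA σ (hXA σ hσ).1 s hs) ?_
    unfold ag
    apply card_le_card
    intro i hi
    have hi2 := (mem_filter.1 hi).2
    refine mem_filter.2 ⟨mem_filter.2 ⟨mem_compl.2 ?_, ?_⟩, hi2⟩
    · intro h
      exact hsZ i h (by rw [← hi2, hXZ σ hσ i h])
    · intro j hj h
      have h1 : σ i = σ j := by rw [hi2, h, hXZ σ hσ j hj]
      have h2 := σ.injective h1
      exact hsZ j hj (by rw [← h, h2])
  set H : Finset (Fin (2 * t + 1)) := T.filter (fun i => s i = g i) with hH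
  have hHZ : ∀ i ∈ H, i ∉ Z := by
    intro i hi hiZ
    exact hsZ i hiZ (mem_filter.1 hi).2
  have hHR : H ⊆ R := by
    intro i hi
    refine mem_filter.2 ⟨mem_compl.2 (hHZ i hi), ?_⟩
    intro j hj h
    rw [(mem_filter.1 hi).2] at h
    have := g.injective h
    subst this
    exact hHZ _ hi hj
  have hgH : ∀ i ∈ R, i ∉ H → ((thr X i (s i)).card : ℝ) ≤ β2 * X.card := by
    intro i hi hiH
    apply hL x hxT x' hxT' hxx i (s i)
    rintro ⟨h1, h2⟩
    exact hiH (mem_filter.2 ⟨h1, h2⟩)
  obtain ⟨q, hq, h0, h1⟩ := core_tX rfl ht hZc hXZ hZR hcR hRc hHR hcard hXR hgH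
  have h2 := hC2 q hq
  have h3 : 0 < 2 - β2 * q := by
    by_contra hcon
    push Not at hcon
    have h4 : (2 - β2 * q) * θ * ((t + 1).factorial : ℝ) ≤ 0 :=
      mul_nonpos_of_nonpos_of_nonneg (mul_nonpos_of_nonpos_of_nonneg hcon hθ.le) hfac.le
    linarith
  have h4 : (2 - β2 * q) * (θ * ((t + 1).factorial : ℝ)) ≤ (2 - β2 * q) * X.card :=
    mul_le_mul_of_nonneg_left hXF h3.le
  linarith

/-- the inequalities, (c2) with the exact counts -/
structure NumX (t : ℕ) (β0 p0 β1 β2 θ θs βs : ℝ) : Prop where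
  ht : 5 ≤ t
  hb0 : 0 ≤ β0
  hb1 : 0 ≤ β1
  hb2 : 0 ≤ β2
  hbs : 0 ≤ βs
  hθ : 0 < θ
  hθs : 0 < θs
  hp0 : 1 / 2 < p0
  ha : β0 * (2 * t) < t - 1
  hB1 : β1 * (2 * t - 1) < t
  hB2 : β2 * (t + 1) < 2
  hC1 : 1 < (2 - β2 * t) * θ * (t + 1)
  hC2 : ∀ q : ℕ, q ≤ t - 1 → (c2b t q : ℝ) < (2 - β2 * q) * θ * ((t + 1).factorial : ℝ)
  hE1 : θs * ((t : ℝ) - 2 * (2 - β2 * t)) ≤ t - 2
  hE2 : phi t < (2 - βs * t) * θs

/-- **the endgame through the levels 0 and 2**, (c2) with the exact counts (otherwise helper76's proof of `endM3`) -/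
theorem endM3X {β0 p0 β1 β2 θ θs βs : ℝ} (N : NumX t β0 p0 β1 β2 θ θs βs)
    (hG0 : Gap (2 * t + 1) t 1 β0 p0) (hL : InputM3 t β0 p0 β1 β2 θ θs βs)
    (hLink : Link t) (hK : ∀ n' t' : ℕ, 2 * t' + 3 ≤ n' → Holds n' t') : Holds (2 * t + 1) t := by
  classical
  have ht := N.ht
  have htR : (5 : ℝ) ≤ t := by exact_mod_cast ht
  apply holds_of_good
  intro A hA
  by_cases hF' : A.card < (2 * t + 1 - t).factorial
  · exact good_of_lt hF'
  rw [not_lt, sub_eq] at hF'
  have hF : ((t + 1).factorial : ℝ) ≤ A.card := by exact_mod_cast hF'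
  have hfac : (0 : ℝ) < ((t + 1).factorial : ℝ) := by exact_mod_cast Nat.factorial_pos _
  have ha0 : (0 : ℝ) < (A.card : ℝ) := lt_of_lt_of_le hfac hF
  have hne : A.Nonempty := by
    rw [← card_pos]
    exact_mod_cast ha0
  have hgap : ∀ x y, ((thr A x y).card : ℝ) ≤ β0 * A.card ∨
      p0 * A.card ≤ ((thr A x y).card : ℝ) :=
    hG0 A hA (by rw [sub_eq, one_mul]; exact hF)
  obtain ⟨g, T, hpop, hcard⟩ := exists_pop hne N.hp0
  have hβ1 : β0 ≤ 1 := by nlinarith [N.ha, N.hb0]
  have h1 := pop_ge hA hne hβ1 hgap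
  rw [hcard] at h1
  push_cast at h1
  have hT2 : 2 ≤ T.card := by
    by_contra hcon
    push Not at hcon
    have h2 : (T.card : ℝ) ≤ 1 := by exact_mod_cast (by omega : T.card ≤ 1)
    nlinarith [N.ha, N.hb0]
  obtain ⟨hL1, hL2, hP, hTc, hLs⟩ := hL A g T hA hF hgap hpop
  have hpop' : ∀ i ∈ T, p0 * A.card ≤ ((thr A i (g i)).card : ℝ) := fun i hi =>
    (hpop i (g i)).2 ⟨hi, rfl⟩
  have hp0' : 0 < p0 := by linarith [N.hp0]
  have hXne : ∀ x ∈ T, (thr A x (g x)).Nonempty := by
    intro x hx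
    rw [← card_pos]
    have h1 : (0 : ℝ) < ((thr A x (g x)).card : ℝ) := lt_of_lt_of_le (mul_pos hp0' ha0) (hpop' x hx)
    exact_mod_cast h1
  have hXne2 : ∀ x ∈ T, ∀ x' ∈ T, x ≠ x' → (thr A x (g x) ∩ thr A x' (g x')).Nonempty := by
    intro x hx x' hx' hxx
    rw [← card_pos]
    have h1 : (0 : ℝ) < ((thr A x (g x) ∩ thr A x' (g x')).card : ℝ) :=
      lt_of_lt_of_le (mul_pos N.hθ ha0) (hP x hx x' hx' hxx)
    exact_mod_cast h1
  have hb : ∀ s ∈ A, ∀ x ∈ T, s x ≠ g x → t ≤ (T.filter (fun i => s i = g i)).card + 1 :=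
    fun s hs x hx hsx => step_b2 (by omega) hA N.hb1 N.hb2 N.hB1 N.hB2 hL1 hL2 hs hx hsx
      (hXne x hx) (fun x' hx' hxx => hXne2 x hx x' hx' hxx)
  have hN : NoTwo A g T := by
    intro σ hσ i hi j hj hij h2
    by_contra h3
    have hlow := hb σ hσ i hi h2
    have hup : (T.filter (fun k => σ k = g k)).card ≤ t := by
      have h4 : T.filter (fun k => σ k = g k) ⊆ (T.erase i).erase j := by
        intro k hk
        obtain ⟨h5, h6⟩ := mem_filter.1 hk
        refine mem_erase.2 ⟨?_, mem_erase.2 ⟨?_, h5⟩⟩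
        · rintro rfl
          exact h3 h6
        · rintro rfl
          exact h2 h6
      have h5 := card_le_card h4
      rw [card_erase_of_mem (mem_erase.2 ⟨hij.symm, hj⟩), card_erase_of_mem hi] at h5
      omega
    have hP1 := hP i hi j hj hij
    rcases Nat.lt_or_ge (T.filter (fun k => σ k = g k)).card t with h | h
    · exact step_mi1 ht hA hF N.hb2 N.hθ N.hC1 hL2 hi hj hij hP1 hσ h2 h3 (by omega)
    · exact step_mi2X ht hA hF N.hθ N.hC2 hL2 hi hj hij hP1 hσ h2 h3 (by omega)
  by_cases hall : ∀ σ ∈ A, ∀ i ∈ T, σ i = g i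
  · exact good_of_star rfl hK hT2 hA hall
  push Not at hall
  obtain ⟨s0, hs0, x0, hx0, hsx0⟩ := hall
  rcases Nat.lt_or_ge T.card (t + 1) with hTc' | hTc'
  · -- y = t
    have hTt : T.card = t := by
      have h1 := hb s0 hs0 x0 hx0 hsx0
      have h2 : T.filter (fun i => s0 i = g i) ⊆ T.erase x0 := by
        intro i hi
        obtain ⟨h3, h4⟩ := mem_filter.1 hi
        refine mem_erase.2 ⟨?_, h3⟩
        rintro rfl
        exact hsx0 h4
      have h3 := card_le_card h2
      rw [card_erase_of_mem hx0] at h3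
      omega
    exact step_eH ht hA hF hK N.hb2 N.hbs N.hθs hTt hL2 hLs hN N.hE1 N.hE2
  · -- y ≥ t + 1
    have hmiss : ∀ U ⊆ T, ∀ σ ∈ A, U.card ≤ (U.filter (fun i => σ i = g i)).card + 1 := by
      intro U hU σ hσ
      have h2 := card_filter_add_card_filter_not (s := U) (fun i => σ i = g i)
      have h3 : (U.filter (fun i => ¬ σ i = g i)).card ≤ 1 := by
        rw [card_le_one]
        intro i hi j hj
        by_contra hij
        exact (mem_filter.1 hj).2
          (hN σ hσ i (hU (mem_filter.1 hi).1) j (hU (mem_filter.1 hj).1) hij (mem_filter.1 hi).2)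
      omega
    obtain ⟨U, hUT, hUc⟩ := exists_subset_card_eq hTc'
    obtain ⟨h2, h3⟩ := hLink A g U hUc hA (fun σ hσ => by
      have := hmiss U hUT σ hσ
      omega)
    refine ⟨by rw [sub_eq]; exact h2, fun heq => ?_⟩
    rw [sub_eq] at heq
    obtain ⟨y, hy, h4⟩ := h3 heq
    exact ⟨g, U.erase y, by rw [card_erase_of_mem hy]; omega, h4⟩

/-- **one diagonal from three gaps**, levels 0 and 2, (c2) with the exact counts -/
theorem holds_of_gapsX {β0 p0 β2 p2 θs βs ps : ℝ}
    (N : NumX t β0 p0 (β0 / p0) β2 (2 * p0 - 1) θs βs) (hB2 : β0 < (2 * p0 - 1) * p2)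
    (hBs : β0 < θs * ps) (hG0 : Gap (2 * t + 1) t 1 β0 p0)
    (hG2 : Gap (2 * t - 1) (t - 2) (2 * p0 - 1) β2 p2) (hGs : Gap (2 * t - 1) (t - 2) θs βs ps)
    (hY : YAny t p0)
    (hLink : Link t) (hK : ∀ n' t' : ℕ, 2 * t' + 3 ≤ n' → Holds n' t') : Holds (2 * t + 1) t := by
  have ht := N.ht
  exact endM3X N hG0 (inputM3_any (by omega) N.hb0 N.hb2 N.hbs N.hθs N.hp0 hB2 hBs hG2 hGs hY)
    hLink hK

/-- `m = 10`: `p0 = .8385`, level two `b2 = .1925` at `.677`, `bs = .171` at `.82` -/
theorem numX10 : NumX 9 (25 / 100) (8385 / 10000) (25 / 100 / (8385 / 10000)) (1925 / 10000)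
    (2 * (8385 / 10000) - 1) (82 / 100) (171 / 1000) := by
  refine ⟨by norm_num, by norm_num, by norm_num, by norm_num, by norm_num, by norm_num, by norm_num,
    by norm_num, by norm_num, by norm_num, by norm_num, by norm_num, ?_, by norm_num, ?_⟩
  · intro q hq
    interval_cases q <;> norm_num [c2b, Dq, Nat.factorial]
  · unfold phi
    norm_num

end Pool.EG
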